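import Pool.Agent.T9h3.LN.Spec2

/-!
# Project LN, piece (G): from one prime to all the conjugate primes
-/

set_option autoImplicit false
set_option linter.overlappingInstances false
set_option linter.unusedSectionVars false

namespace Pool.Agent.T9h22.LN

open Pool.Agent.T9h3.LN

section

variable {O M : Type} [CommRing O] [IsDomain O] [IsDedekindDomain O] [Field M] [Algebra O M]
  [IsFractionRing O M]

theorem SU_mul' (𝔔 : Ideal O) (hp : 𝔔.IsPrime) (n : ℕ) (x y : M) (hx : SU M 𝔔 n x)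
    (hy : SU M 𝔔 n y) : SU M 𝔔 n (x * y) := by
  obtain ⟨s, t, hs, ht, hst, h1⟩ := hx
  obtain ⟨s', t', hs', ht', hst', h1'⟩ := hy
  refine ⟨s * s', t * t', ?_, ?_, ?_, ?_⟩
  · exact fun h => (hp.mem_or_mem h).elim hs hs'
  · exact fun h => (hp.mem_or_mem h).elim ht ht'
  · have h : s * s' - t * t' = s * (s' - t') + t' * (s - t) := by ring
    rw [h]
    exact Ideal.add_mem _ (Ideal.mul_mem_left _ _ hst') (Ideal.mul_mem_left _ _ hst)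
  · rw [map_mul, map_mul, ← h1, ← h1']
    ring

theorem SU_one' (𝔔 : Ideal O) (hp : 𝔔.IsPrime) (n : ℕ) : SU M 𝔔 n 1 :=
  ⟨1, 1, (Ideal.ne_top_iff_one 𝔔).mp hp.ne_top, (Ideal.ne_top_iff_one 𝔔).mp hp.ne_top, by simp,
    by simp⟩

theorem SU_inv' (𝔔 : Ideal O) (n : ℕ) (x : M) (hx0 : x ≠ 0) (hx : SU M 𝔔 n x) :
    SU M 𝔔 n x⁻¹ := by
  obtain ⟨s, t, hs, ht, hst, h1⟩ := hx
  refine ⟨t, s, ht, hs, ?_, ?_⟩
  · have h : t - s = -(s - t) := by ring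
    rw [h]
    exact neg_mem hst
  · rw [← h1]
    field_simp

theorem SU_zero' (𝔔 : Ideal O) (n : ℕ) (x : M) (hx : SU M 𝔔 n x) : SU M 𝔔 0 x := by
  obtain ⟨s, t, hs, ht, hst, h1⟩ := hx
  exact ⟨s, t, hs, ht, by simp, h1⟩

/-- The congruence subgroup. -/
def USub (M : Type) [Field M] [Algebra O M] [IsFractionRing O M] (𝔔 : Ideal O) (hp : 𝔔.IsPrime)
    (n : ℕ) : AddSubgroup (Additive Mˣ) where
  carrier := {u | SU M 𝔔 n ((u.toMul : Mˣ) : M)}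
  add_mem' := fun {a b} ha hb => by
    show SU M 𝔔 n _
    rw [toMul_add, Units.val_mul]
    exact SU_mul' 𝔔 hp n _ _ ha hb
  zero_mem' := by
    show SU M 𝔔 n _
    rw [toMul_zero, Units.val_one]
    exact SU_one' 𝔔 hp n
  neg_mem' := fun {a} ha => by
    show SU M 𝔔 n _
    rw [toMul_neg, Units.val_inv_eq_inv_val]
    exact SU_inv' 𝔔 n _ (Units.ne_zero _) ha

theorem in_O (z : M) (h : ∀ 𝔔 : Ideal O, 𝔔.IsMaximal → SU M 𝔔 0 z) :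
    ∃ o : O, algebraMap O M o = z := by
  let I : Ideal O :=
    { carrier := {t | ∃ o : O, z * algebraMap O M t = algebraMap O M o}
      add_mem' := by
        rintro a b ⟨o, ho⟩ ⟨o', ho'⟩
        exact ⟨o + o', by rw [map_add, map_add, ← ho, ← ho']; ring⟩
      zero_mem' := ⟨0, by simp⟩
      smul_mem' := by
        rintro a b ⟨o, ho⟩
        exact ⟨a * o, by rw [smul_eq_mul, map_mul, map_mul, ← ho]; ring⟩ }
  have hI : I = ⊤ := by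
    by_contra hne
    obtain ⟨𝔔, hm, hle⟩ := Ideal.exists_le_maximal I hne
    obtain ⟨s, t, hs, ht, -, hst⟩ := h 𝔔 hm
    exact ht (hle ⟨s, hst⟩)
  have h1 : (1 : O) ∈ I := by
    rw [hI]
    trivial
  obtain ⟨o, ho⟩ := h1
  exact ⟨o, by rw [← ho, map_one, mul_one]⟩

variable {G : Type} [Group G] [MulSemiringAction G M] (T : G → (O ≃+* O))
  (hT : ∀ g o, algebraMap O M (T g o) = g • algebraMap O M o)

include hT

theorem SU_act (g : G) (𝔔 : Ideal O) (n : ℕ) (x : M) (hx : SU M 𝔔 n x) :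
    SU M (mvI T g 𝔔) n (g • x) := by
  obtain ⟨s, t, hs, ht, hst, h1⟩ := hx
  refine ⟨T g s, T g t, ?_, ?_, ?_, ?_⟩
  · intro h
    apply hs
    have h2 : (T g).symm (T g s) ∈ 𝔔 := h
    rwa [RingEquiv.symm_apply_apply] at h2
  · intro h
    apply ht
    have h2 : (T g).symm (T g t) ∈ 𝔔 := h
    rwa [RingEquiv.symm_apply_apply] at h2
  · rw [← map_sub]
    have h2 : Ideal.map (T g : O →+* O) 𝔔 ≤ mvI T g 𝔔 := by
      rw [Ideal.map_le_iff_le_comap]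
      intro y hy
      show (T g).symm (T g y) ∈ 𝔔
      rwa [RingEquiv.symm_apply_apply]
    have h3 : (T g : O →+* O) (s - t) ∈ Ideal.map (T g : O →+* O) (𝔔 ^ n) :=
      Ideal.mem_map_of_mem (T g : O →+* O) hst
    rw [Ideal.map_pow] at h3
    exact Ideal.pow_right_mono h2 n h3
  · rw [hT, hT, ← h1, smul_mul']

theorem T_mul (g h : G) (o : O) : T (g * h) o = T g (T h o) := by
  apply FaithfulSMul.algebraMap_injective O M
  rw [hT, hT, hT, mul_smul]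

theorem T_symm (g : G) (o : O) : (T g).symm o = T g⁻¹ o := by
  apply (T g).injective
  rw [RingEquiv.apply_symm_apply]
  apply FaithfulSMul.algebraMap_injective O M
  rw [hT, hT, smul_inv_smul]

theorem mvI_mul (g h : G) (𝔔 : Ideal O) : mvI T (g * h) 𝔔 = mvI T g (mvI T h 𝔔) := by
  ext x
  show (T (g * h)).symm x ∈ 𝔔 ↔ (T h).symm ((T g).symm x) ∈ 𝔔
  rw [T_symm T hT, T_symm T hT, T_symm T hT, mul_inv_rev, T_mul T hT]

theorem mvI_one (𝔔 : Ideal O) : mvI T 1 𝔔 = 𝔔 := by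
  ext x
  show (T 1).symm x ∈ 𝔔 ↔ x ∈ 𝔔
  have h : T 1 x = x := by
    apply FaithfulSMul.algebraMap_injective O M
    rw [hT, one_smul]
  rw [T_symm T hT, inv_one, h]

end

theorem mvI_max {O G : Type} [CommRing O] (T : G → (O ≃+* O)) (g : G) (𝔔 : Ideal O)
    (h : 𝔔.IsMaximal) : (mvI T g 𝔔).IsMaximal := by
  unfold mvI
  exact Ideal.comap_isMaximal_of_surjective _ (T g).symm.surjective

theorem glo (hA : S_Appr) : S_Glo := by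
  intro O M L G _ _ _ _ _ _ _ _ _ _ _ _ _ T hT hfin hne 𝔓₀ h𝔓₀ htr n Wd hW1 hW2 c hc a₀ ha0 han
  classical
  have hs : ∀ 𝔔 : Ideal O, ∃ g : G, 𝔔.IsMaximal → mvI T g 𝔓₀ = 𝔔 := by
    intro 𝔔
    by_cases h : 𝔔.IsMaximal
    · obtain ⟨g, hg⟩ := htr 𝔔 h
      exact ⟨g, fun _ => hg⟩
    · exact ⟨1, fun h' => absurd h' h⟩
  choose s hs using hs
  have hsi : ∀ 𝔔 : Ideal O, 𝔔.IsMaximal → mvI T (s 𝔔)⁻¹ 𝔔 = 𝔓₀ := by
    intro 𝔔 h𝔔
    have h : mvI T (s 𝔔)⁻¹ (mvI T (s 𝔔) 𝔓₀) = 𝔓₀ := by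
      rw [← mvI_mul T hT, inv_mul_cancel, mvI_one T hT]
    rwa [hs 𝔔 h𝔔] at h
  -- the local solutions
  let as : G → L →+ Additive Mˣ := fun g =>
    AddMonoidHom.mk' (fun x => uAct g (a₀ (g⁻¹ • x)) - c g x) (by
      intro x y
      rw [smul_add, map_add, map_add, map_add]
      abel)
  have has : ∀ g x, as g x = uAct g (a₀ (g⁻¹ • x)) - c g x := fun g x => rfl
  have hA1 : ∀ g s' x, uAct g (as s' (g⁻¹ • x)) = as (g * s') x + c g x := by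
    intro g s' x
    rw [has, has, map_sub, hc, uAct_mul, mul_inv_rev, mul_smul]
    abel
  have hA2 : ∀ g d x, as g x - as (g * d) x =
      uAct g (c d (g⁻¹ • x) - (uAct d (a₀ (d⁻¹ • g⁻¹ • x)) - a₀ (g⁻¹ • x))) := by
    intro g d x
    rw [has, has, map_sub, map_sub, hc, uAct_mul, mul_inv_rev, mul_smul]
    abel
  -- the global solution
  let bs := Module.Free.chooseBasis ℤ L
  have hz : ∀ i, ∃ z : Mˣ, ∀ 𝔔 : Ideal O, 𝔔.IsMaximal →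
      SU M 𝔔 n ((z : M) / ((as (s 𝔔) (bs i)).toMul : Mˣ)) := by
    intro i
    obtain ⟨z, hz0, hz⟩ := hA O M hfin.toFinset (fun 𝔔 h𝔔 => by
      have h : 𝔔.IsMaximal := by simpa using h𝔔
      exact ⟨h, hne 𝔔 h⟩) n (fun 𝔔 => (((as (s 𝔔) (bs i)).toMul : Mˣ) : M))
      (fun 𝔔 _ => Units.ne_zero _)
    refine ⟨Units.mk0 z hz0, fun 𝔔 h𝔔 => ?_⟩
    exact hz 𝔔 (by simpa using h𝔔)
  choose z hz using hz
  let a : L →ₗ[ℤ] Additive Mˣ := bs.constr ℤ (fun i => Additive.ofMul (z i))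
  have ha1 : ∀ i, a (bs i) = Additive.ofMul (z i) := fun i => by
    show bs.constr ℤ _ (bs i) = _
    rw [Module.Basis.constr_basis]
  have ha : ∀ (𝔔 : Ideal O) (h𝔔 : 𝔔.IsMaximal) (x : L),
      a x - as (s 𝔔) x ∈ USub M 𝔔 h𝔔.isPrime n := by
    intro 𝔔 h𝔔 x
    let f : L →ₗ[ℤ] Additive Mˣ := a - (as (s 𝔔)).toIntLinearMap
    have hf : ∀ y, f y = a y - as (s 𝔔) y := fun y => rfl
    let U : Submodule ℤ (Additive Mˣ) := AddSubgroup.toIntSubmodule (USub M 𝔔 h𝔔.isPrime n)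
    have h1 : Submodule.comap f U = ⊤ := by
      rw [eq_top_iff, ← bs.span_eq, Submodule.span_le]
      rintro _ ⟨i, rfl⟩
      show f (bs i) ∈ USub M 𝔔 h𝔔.isPrime n
      rw [hf, ha1]
      show SU M 𝔔 n _
      rw [toMul_sub, Units.val_div_eq_div_val]
      exact hz i 𝔔 h𝔔
    have h2 : x ∈ Submodule.comap f U := by
      rw [h1]
      trivial
    exact h2
  -- the key congruence
  have hle : ∀ (𝔔 : Ideal O) (h𝔔 : 𝔔.IsMaximal), USub M 𝔔 h𝔔.isPrime n ≤ USub M 𝔔 h𝔔.isPrime 0 :=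
    fun 𝔔 h𝔔 u hu => SU_zero' 𝔔 n _ hu
  have hact : ∀ (g : G) (𝔔 𝔔' : Ideal O) (h𝔔 : 𝔔.IsMaximal) (h𝔔' : 𝔔'.IsMaximal),
      mvI T g 𝔔 = 𝔔' → ∀ k, ∀ u ∈ USub M 𝔔 h𝔔.isPrime k, uAct g u ∈ USub M 𝔔' h𝔔'.isPrime k := by
    rintro g 𝔔 𝔔' h𝔔 h𝔔' rfl k u hu
    show SU M _ k _
    rw [uAct_val]
    exact SU_act T hT g 𝔔 k _ hu
  have hkey : ∀ (k : ℕ) (𝔔 : Ideal O) (h𝔔 : 𝔔.IsMaximal) (g : G) (x : L),
      USub M 𝔔 h𝔔.isPrime n ≤ USub M 𝔔 h𝔔.isPrime k →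
      SU M 𝔓₀ k ((c ((s 𝔔)⁻¹ * (g * s (mvI T g⁻¹ 𝔔))) ((s 𝔔)⁻¹ • x) -
        (uAct ((s 𝔔)⁻¹ * (g * s (mvI T g⁻¹ 𝔔)))
          (a₀ (((s 𝔔)⁻¹ * (g * s (mvI T g⁻¹ 𝔔)))⁻¹ • (s 𝔔)⁻¹ • x)) -
            a₀ ((s 𝔔)⁻¹ • x))).toMul : Mˣ) →
      c g x - (uAct g (a (g⁻¹ • x)) - a x) ∈ USub M 𝔔 h𝔔.isPrime k := by
    intro k 𝔔 h𝔔 g x hk hd
    set 𝔔' := mvI T g⁻¹ 𝔔 with h𝔔'def
    have h𝔔' : 𝔔'.IsMaximal := mvI_max T g⁻¹ 𝔔 h𝔔
    have hg𝔔' : mvI T g 𝔔' = 𝔔 := by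
      rw [h𝔔'def, ← mvI_mul T hT, mul_inv_cancel, mvI_one T hT]
    set d := (s 𝔔)⁻¹ * (g * s 𝔔') with hd'
    have hgs : g * s 𝔔' = s 𝔔 * d := by
      rw [hd']
      group
    have h1 : uAct g (a (g⁻¹ • x) - as (s 𝔔') (g⁻¹ • x)) ∈ USub M 𝔔 h𝔔.isPrime k :=
      hk (hact g 𝔔' 𝔔 h𝔔' h𝔔 hg𝔔' n _ (ha 𝔔' h𝔔' _))
    have h2 : a x - as (s 𝔔) x ∈ USub M 𝔔 h𝔔.isPrime k := hk (ha 𝔔 h𝔔 x)
    have h3 : as (s 𝔔) x - as (s 𝔔 * d) x ∈ USub M 𝔔 h𝔔.isPrime k := by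
      rw [hA2]
      exact hact (s 𝔔) 𝔓₀ 𝔔 h𝔓₀ h𝔔 (hs 𝔔 h𝔔) k _ hd
    have h4 : c g x - (uAct g (a (g⁻¹ • x)) - a x) =
        -uAct g (a (g⁻¹ • x) - as (s 𝔔') (g⁻¹ • x)) + (a x - as (s 𝔔) x) +
          (as (s 𝔔) x - as (s 𝔔 * d) x) := by
      rw [map_sub, hA1, hgs]
      abel
    rw [h4]
    exact add_mem (add_mem (neg_mem h1) h2) h3
  have hall : ∀ g x, ∃ u : O,
      algebraMap O M u = ((c g x - (uAct g (a (g⁻¹ • x)) - a x)).toMul : Mˣ) := by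
    intro g x
    apply in_O
    intro 𝔔 h𝔔
    have h := hkey 0 𝔔 h𝔔 g x (hle 𝔔 h𝔔) (by
      apply ha0
      rw [mvI_mul T hT, mvI_mul T hT, hs _ (mvI_max T g⁻¹ 𝔔 h𝔔), ← mvI_mul T hT g,
        mul_inv_cancel, mvI_one T hT]
      exact hsi 𝔔 h𝔔)
    exact h
  refine ⟨a.toAddMonoidHom, hall, ?_⟩
  intro 𝔔 g h𝔔 hg x
  obtain ⟨u, hu⟩ := hall g x
  have hgq : mvI T g 𝔔 = 𝔔 := hW1 𝔔 g hg
  have hgq' : mvI T g⁻¹ 𝔔 = 𝔔 := by
    conv_lhs => rw [← hgq]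
    rw [← mvI_mul T hT, inv_mul_cancel, mvI_one T hT]
  have h := hkey n 𝔔 h𝔔 g x le_rfl (by
    rw [hgq']
    apply han
    have h5 := hW2 𝔔 (s 𝔔)⁻¹ g hg
    rw [hsi 𝔔 h𝔔, inv_inv] at h5
    rw [← mul_assoc]
    exact h5)
  have h' : SU M 𝔔 n (algebraMap O M u) := by
    rw [hu]
    exact h
  obtain ⟨s1, t1, hs1, ht1, hst1, h1⟩ := h'
  refine ⟨u - 1, ?_, ?_⟩
  · rw [← map_mul] at h1
    have h2 : u * t1 = s1 := FaithfulSMul.algebraMap_injective O M h1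
    have h3 : t1 * (u - 1) ∈ 𝔔 ^ n := by
      have h4 : t1 * (u - 1) = s1 - t1 := by
        rw [← h2]
        ring
      rw [h4]
      exact hst1
    have := h𝔔.isPrime
    exact (Ideal.IsPrime.mul_mem_pow 𝔔 h3).resolve_left ht1
  · rw [add_sub_cancel]
    exact hu

end Pool.Agent.T9h22.LN
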