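import Pool.Agent.T9h3.LN.Spec4

/-!
# Project LN, piece (X2): application of `S_Glo`
-/

set_option autoImplicit false
set_option linter.unusedSectionVars false
set_option linter.unusedVariables false
set_option linter.overlappingInstances false

namespace Pool.Agent.T9h22.LN

open Pool.Agent.T9h3 Pool.Agent.T9h3.P Pool.Agent.T9h3.Q Pool.Agent.T9h3.R Pool.Agent.T9h3.H
open Pool.Agent.T9h3.LN

theorem glo2 : S_Glo → S_Glo2 := by
  intro hglo E M' L _ _ _ _ _ V _ _ _ _ _ _ hfin hne r hr 𝔓' h𝔓' hr𝔓' htr n c hc a₀ ha0 han hl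
  have hfr : IsFractionRing (integralClosure V M') M' :=
    IsIntegralClosure.isFractionRing_of_finite_extension V E M' (integralClosure V M')
  obtain ⟨T, hT⟩ : ∃ T, T = Tk V (integralClosure V M') E M' := ⟨_, rfl⟩
  rw [← hT] at htr ha0 han hl
  have hcoe : ∀ (g : M' ≃ₐ[E] M') (o : integralClosure V M'),
      algebraMap (integralClosure V M') M' (Tr T g o) =
        g • algebraMap (integralClosure V M') M' o := by
    intro g o
    rw [hT]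
    exact Tk_coe V (integralClosure V M') E M' g o
  have hiff : ∀ (𝔔 : Ideal (integralClosure V M')) (g : M' ≃ₐ[E] M'),
      (∀ o, T g o - o ∈ 𝔔) ↔ g ∈ InS E M' 𝔔 := by
    intro 𝔔 g
    rw [hT]
    exact Tk_iff 𝔔 g
  obtain ⟨a, h1, h2⟩ := hglo (integralClosure V M') M' L (M' ≃ₐ[E] M') (Tr T) hcoe hfin hne 𝔓' h𝔓'
    htr n (fun 𝔔 g => 𝔔.IsMaximal ∧ g ≠ 1 ∧ (∀ o, T g o - o ∈ 𝔔) ∧ g ^ r = 1)
    (fun 𝔔 g h => ine_Dg h.2.2.1)
    (fun 𝔔 s g h => ⟨mvI_max h.1, fun h3 => h.2.1 (conj_eq_one_iff.1 h3), ine_conj h.2.2.1, by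
      rw [conj_pow, h.2.2.2, mul_one, mul_inv_cancel]⟩)
    c hc a₀ ha0 (fun g h x => han g h.2.1 h.2.2.1 h.2.2.2 x)
  refine ⟨a, fun g x => ?_, ?_⟩
  · obtain ⟨u, hu⟩ := h1 g x
    exact ⟨u, hu⟩
  · rintro 𝔔 p g ⟨h𝔔, hp, hp𝔔, hg, hord⟩ l hgl x
    obtain ⟨s, hs⟩ := htr 𝔔 h𝔔
    have hr𝔔 : (r : integralClosure V M') ∈ 𝔔 := by
      rw [← hs, mem_mvI, map_natCast]
      exact hr𝔓'
    have hpr : p = r := prime_eq h𝔔 hp hr hp𝔔 hr𝔔
    subst hpr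
    have hg1 : g ≠ 1 := by
      rintro rfl
      rw [orderOf_one] at hord
      exact hp.one_lt.ne hord
    have hgr : g ^ p = 1 := by
      rw [← hord]
      exact pow_orderOf_eq_one g
    have hgi := (hiff 𝔔 g).2 hg
    have hgl' : ∀ o, T g o - o ∈ 𝔔 ^ (l + 1) := (hiff (𝔔 ^ (l + 1)) g).2 hgl
    have hs' : mvI (Tr T) s⁻¹ 𝔔 = 𝔓' := by
      rw [← hs, ← mvI_mul, inv_mul_cancel, mvI_one]
    have hle : p * l ≤ n := by
      refine hl (s⁻¹ * g * s⁻¹⁻¹) (fun h3 => hg1 (conj_eq_one_iff.1 h3)) ?_ ?_ l ?_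
      · have h3 := ine_conj (s := s⁻¹) hgi
        rwa [hs'] at h3
      · rw [conj_pow, hgr, mul_one, mul_inv_cancel]
      · have h3 := ine_conj (s := s⁻¹) hgl'
        rwa [mvI_pow, hs'] at h3
    obtain ⟨e, he, h3⟩ := h2 𝔔 g h𝔔 ⟨h𝔔, hg1, hgi, hgr⟩ x
    exact ⟨e, Ideal.pow_le_pow_right hle he, h3⟩

end Pool.Agent.T9h22.LN
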