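import Pool.Agent.T9h3.LN.Spec

/-!
# Project LN, piece (A3): from lattices without fixed points to all lattices
-/

set_option autoImplicit false

namespace Pool.Agent.T9h22.LN

open Pool.Agent.T9h3.LN Finset

theorem lat (h0 : S_Lat0) : S_Lat := by
  intro A L _ _ _ _ r hr σ τ hσ hτ hH U hU c hc
  classical
  -- iterates
  have hts : ∀ (i : ℕ) (x : L), (τ.symm^[i]) x = x → (τ^[i]) x = x := by
    intro i x h
    have h1 : (τ^[i]) ((τ.symm^[i]) x) = x := by
      have h2 : Function.LeftInverse (τ : L → L) (τ.symm : L → L) := fun y => τ.apply_symm_apply y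
      exact h2.iterate i x
    rw [h] at h1
    exact h1
  have hsr : ∀ x, (τ.symm^[r]) x = x := by
    intro x
    have h2 : Function.LeftInverse (τ.symm : L → L) (τ : L → L) := fun y => τ.symm_apply_apply y
    have h3 := h2.iterate r x
    rw [hτ] at h3
    exact h3
  -- the fixed points
  let L0 : AddSubgroup L := (τ.toAddMonoidHom - AddMonoidHom.id L).ker
  have hL0 : ∀ x, x ∈ L0 ↔ τ x = x := by
    intro x
    show (τ.toAddMonoidHom - AddMonoidHom.id L) x = 0 ↔ _
    rw [AddMonoidHom.sub_apply, sub_eq_zero]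
    rfl
  have hL0s : ∀ x ∈ L0, τ.symm x = x := by
    intro x hx
    rw [AddEquiv.symm_apply_eq]
    exact ((hL0 x).1 hx).symm
  have hL0i : ∀ x ∈ L0, ∀ i : ℕ, (τ.symm^[i]) x = x := by
    intro x hx i
    exact Function.iterate_fixed (hL0s x hx) i
  haveI : Module.Finite ℤ L0 :=
    Module.Finite.of_injective L0.subtype.toIntLinearMap L0.subtype_injective
  haveI : Module.IsTorsionFree ℤ L0 :=
    Function.Injective.moduleIsTorsionFree (fun x : L0 => (x : L)) Subtype.coe_injective
      (fun r m => rfl)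
  let e := Module.Free.chooseBasis ℤ L0
  have hex : ∀ i, ∃ b : A, c (e i : L) = σ b - b := by
    intro i
    apply hH
    have h1 := hc (e i : L)
    rw [← h1]
    refine sum_congr rfl fun j _ => ?_
    rw [hL0i _ (e i).2 j]
  choose bb hbb using hex
  let β : L0 →ₗ[ℤ] A := e.constr ℤ bb
  have hβ : ∀ x : L0, c (x : L) = σ (β x) - β x := by
    have h1 : (c.comp L0.subtype).toIntLinearMap =
        (σ.toAddMonoidHom.comp β.toAddMonoidHom - β.toAddMonoidHom).toIntLinearMap := by
      refine e.ext fun i => ?_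
      show c (e i : L) = σ (β (e i)) - β (e i)
      have h2 : β (e i) = bb i := e.constr_basis ℤ bb i
      rw [h2]
      exact hbb i
    intro x
    exact congrArg (fun f : L0 →ₗ[ℤ] A => f x) h1
  -- the quotient
  let π : L →+ L ⧸ L0 := QuotientAddGroup.mk' L0
  have hπ : Function.Surjective π := QuotientAddGroup.mk'_surjective L0
  have hπ0 : ∀ x, π x = 0 ↔ x ∈ L0 := fun x => QuotientAddGroup.eq_zero_iff x
  haveI : Module.Finite ℤ (L ⧸ L0) := Module.Finite.of_surjective π.toIntLinearMap hπ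
  haveI : Module.IsTorsionFree ℤ (L ⧸ L0) := by
    apply Module.IsTorsionFree.of_smul_eq_zero
    intro m q hq
    obtain ⟨x, rfl⟩ := hπ q
    rw [← map_zsmul, hπ0, hL0, map_zsmul] at hq
    by_cases hm : m = 0
    · exact Or.inl hm
    · right
      rw [hπ0, hL0]
      exact smul_right_injective L hm hq
  let eQ := Module.Free.chooseBasis ℤ (L ⧸ L0)
  have hexQ : ∀ i, ∃ x : L, π x = eQ i := fun i => hπ (eQ i)
  choose sQ hsQ using hexQ
  let s : (L ⧸ L0) →ₗ[ℤ] L := eQ.constr ℤ sQ
  have hs : ∀ q, π (s q) = q := by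
    have h1 : (π.comp s.toAddMonoidHom).toIntLinearMap = LinearMap.id := by
      refine eQ.ext fun i => ?_
      show π (s (eQ i)) = eQ i
      have h2 : s (eQ i) = sQ i := eQ.constr_basis ℤ sQ i
      rw [h2]
      exact hsQ i
    intro q
    exact congrArg (fun f : (L ⧸ L0) →ₗ[ℤ] (L ⧸ L0) => f q) h1
  -- the projection to the fixed points
  let p : L →+ L0 := (AddMonoidHom.id L - s.toAddMonoidHom.comp π).codRestrict L0 (by
    intro x
    rw [← hπ0]
    show π (x - s (π x)) = 0
    rw [map_sub, hs, sub_self])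
  have hp : ∀ x : L, (p x : L) = x - s (π x) := fun x => rfl
  let b0 : L →+ A := β.toAddMonoidHom.comp p
  have hb0 : ∀ x (hx : x ∈ L0), b0 x = β ⟨x, hx⟩ := by
    intro x hx
    show β (p x) = β ⟨x, hx⟩
    congr 1
    apply Subtype.ext
    rw [hp, (hπ0 x).2 hx, map_zero, sub_zero]
  let c' : L →+ A := c - (σ.toAddMonoidHom.comp (b0.comp τ.symm.toAddMonoidHom) - b0)
  have hc' : ∀ x, c' x = c x - (σ (b0 (τ.symm x)) - b0 x) := fun x => rfl
  have hker : L0 ≤ c'.ker := by
    intro x hx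
    rw [AddMonoidHom.mem_ker, hc', hL0s x hx, hb0 x hx]
    have := hβ ⟨x, hx⟩
    rw [← this]
    exact sub_self _
  let cb : (L ⧸ L0) →+ A := QuotientAddGroup.lift L0 c' hker
  have hcb : ∀ x, cb (π x) = c' x := fun x => rfl
  have hmap : L0.map (τ : L →+ L) = L0 := by
    ext x
    rw [AddSubgroup.mem_map]
    constructor
    · rintro ⟨y, hy, rfl⟩
      have h1 := (hL0 y).1 hy
      show τ y ∈ L0
      rw [h1]
      exact hy
    · intro hx
      exact ⟨x, hx, (hL0 x).1 hx⟩
  let τb : (L ⧸ L0) ≃+ (L ⧸ L0) := QuotientAddGroup.congr L0 L0 τ hmap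
  have hτb : ∀ x, τb (π x) = π (τ x) := fun x => rfl
  have hτbs : ∀ x, τb.symm (π x) = π (τ.symm x) := by
    intro x
    rw [AddEquiv.symm_apply_eq, hτb, AddEquiv.apply_symm_apply]
  have hτbi : ∀ (i : ℕ) (x : L), (τb^[i]) (π x) = π ((τ^[i]) x) := by
    intro i
    induction i with
    | zero => intro x; rfl
    | succ i ih =>
      intro x
      rw [Function.iterate_succ_apply, Function.iterate_succ_apply, hτb, ih]
  have hτbsi : ∀ (i : ℕ) (x : L), (τb.symm^[i]) (π x) = π ((τ.symm^[i]) x) := by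
    intro i
    induction i with
    | zero => intro x; rfl
    | succ i ih =>
      intro x
      rw [Function.iterate_succ_apply, Function.iterate_succ_apply, hτbs, ih]
  have hN : ∀ q : L ⧸ L0, ∑ i ∈ range r, (τb^[i]) q = 0 := by
    intro q
    obtain ⟨x, rfl⟩ := hπ q
    have h1 : ∑ i ∈ range r, (τb^[i]) (π x) = π (∑ i ∈ range r, (τ^[i]) x) := by
      rw [map_sum]
      exact sum_congr rfl fun i _ => hτbi i x
    rw [h1, hπ0, hL0, map_sum]
    have h2 := sum_range_succ (fun i => (τ^[i]) x) r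
    have h3 := sum_range_succ' (fun i => (τ^[i]) x) r
    have h4 : ∑ i ∈ range r, τ ((τ^[i]) x) = ∑ i ∈ range r, (τ^[i + 1]) x :=
      sum_congr rfl fun i _ => (Function.iterate_succ_apply' _ _ _).symm
    rw [h4]
    rw [h2] at h3
    simp only [hτ, Function.iterate_zero, id] at h3
    exact (add_right_cancel h3).symm
  have hcoc : ∀ q : L ⧸ L0, ∑ i ∈ range r, (σ^[i]) (cb ((τb.symm^[i]) q)) = 0 := by
    intro q
    obtain ⟨x, rfl⟩ := hπ q
    have h1 : ∀ i : ℕ, (σ^[i]) (cb ((τb.symm^[i]) (π x))) = (σ^[i]) (c ((τ.symm^[i]) x)) -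
        ((σ^[i + 1]) (b0 ((τ.symm^[i + 1]) x)) - (σ^[i]) (b0 ((τ.symm^[i]) x))) := by
      intro i
      rw [hτbsi, hcb, hc', iterate_map_sub, iterate_map_sub, Function.iterate_succ_apply,
        Function.iterate_succ_apply' (τ.symm : L → L)]
    rw [sum_congr rfl fun i _ => h1 i, sum_sub_distrib, hc,
      sum_range_sub (fun i => (σ^[i]) (b0 ((τ.symm^[i]) x)))]
    rw [hσ, hsr]
    simp
  obtain ⟨bq, hbq⟩ := h0 A (L ⧸ L0) r hr σ τb hσ hN U hU cb hcoc
  refine ⟨b0 + bq.comp π, fun x => ?_⟩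
  have h1 := hbq (π x)
  rw [hcb, hc', hτbs] at h1
  have h2 : c x - (σ ((b0 + bq.comp π) (τ.symm x)) - (b0 + bq.comp π) x) =
      c x - (σ (b0 (τ.symm x)) - b0 x) - (σ (bq (π (τ.symm x))) - bq (π x)) := by
    rw [AddMonoidHom.add_apply, AddMonoidHom.add_apply, map_add]
    show c x - (σ (b0 (τ.symm x)) + σ (bq (π (τ.symm x))) - (b0 x + bq (π x))) = _
    abel
  rw [h2]
  exact h1

end Pool.Agent.T9h22.LN
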