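import Pool.Agent.T9h3.LN.Spec2

/-!
# Project LN, piece (V): the valuation of a maximal ideal of a Dedekind domain
-/

set_option autoImplicit false
set_option linter.overlappingInstances false
set_option linter.unusedSectionVars false

namespace Pool.Agent.T9h22.LN

open Pool.Agent.T9h3.LN IsDedekindDomain WithZero

section

variable {O : Type} (M : Type) [CommRing O] [IsDomain O] [IsDedekindDomain O] [Field M]
  [Algebra O M] [IsFractionRing O M] (w : HeightOneSpectrum O)

/-- The additive valuation. -/
noncomputable def av (x : M) : ℤ := -WithZero.log (w.valuation M x)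

theorem av_mul (x y : M) (hx : x ≠ 0) (hy : y ≠ 0) : av M w (x * y) = av M w x + av M w y := by
  unfold av
  rw [map_mul, WithZero.log_mul ((Valuation.ne_zero_iff _).mpr hx) ((Valuation.ne_zero_iff _).mpr hy)]
  ring

theorem le_av_iff (x : M) (hx : x ≠ 0) (n : ℤ) :
    n ≤ av M w x ↔ w.valuation M x ≤ exp (-n) := by
  unfold av
  rw [← WithZero.log_le_iff_le_exp ((Valuation.ne_zero_iff _).mpr hx)]
  constructor <;> intro h <;> linarith

theorem le_av_map (o : O) (ho : o ≠ 0) (n : ℕ) :
    (n : ℤ) ≤ av M w (algebraMap O M o) ↔ o ∈ w.asIdeal ^ n := by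
  have h1 : algebraMap O M o ≠ 0 := by
    intro h
    exact ho ((FaithfulSMul.algebraMap_injective O M) (by rw [h, map_zero]))
  rw [le_av_iff M w _ h1, HeightOneSpectrum.valuation_of_algebraMap,
    HeightOneSpectrum.intValuation_le_pow_iff_mem]

theorem av_eq_zero (o : O) (ho : o ∉ w.asIdeal) : w.valuation M (algebraMap O M o) = 1 := by
  rw [HeightOneSpectrum.valuation_of_algebraMap]
  exact (HeightOneSpectrum.intValuation_eq_one_iff_mem_primeCompl w o).mpr ho

theorem av_zero (o : O) (ho : o ∉ w.asIdeal) : av M w (algebraMap O M o) = 0 := by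
  unfold av
  rw [av_eq_zero M w o ho]
  simp

end

theorem val : S_Val := by
  intro O M _ _ _ _ _ _ 𝔔 hmax hne
  have hp : 𝔔.IsPrime := hmax.isPrime
  set w : HeightOneSpectrum O := ⟨𝔔, hp, hne⟩ with hw
  have hwi : w.asIdeal = 𝔔 := rfl
  have hinj : Function.Injective (algebraMap O M) := FaithfulSMul.algebraMap_injective O M
  refine ⟨av M w, av_mul M w, ?_, ?_, ?_, ?_⟩
  · intro x n hx hx'
    have hx0 : x ≠ 0 := by
      rintro rfl
      exact hx' (Ideal.zero_mem _)
    have h1 := (le_av_map M w x hx0 n).mpr hx
    have h2 : ¬ ((n + 1 : ℕ) : ℤ) ≤ av M w (algebraMap O M x) := fun h =>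
      hx' ((le_av_map M w x hx0 (n + 1)).mp h)
    push_cast at h2
    omega
  · intro x hx
    have hv0 : w.valuation M x ≠ 0 := (Valuation.ne_zero_iff _).mpr hx
    constructor
    · intro h
      have h1 : w.valuation M x = 1 := by
        have h2 : WithZero.log (w.valuation M x) = 0 := by
          unfold av at h
          omega
        rw [← WithZero.exp_log hv0, h2]
        simp
      obtain ⟨s, t, hst⟩ := HeightOneSpectrum.exists_primeCompl_mul_eq_of_integer w x h1.le
      have ht : (t : O) ∉ 𝔔 := t.2
      refine ⟨s, t, ?_, ht, by simp, hst⟩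
      have h3 : w.valuation M (algebraMap O M s) = 1 := by
        rw [← hst, map_mul, h1, av_eq_zero M w _ ht, one_mul]
      rw [HeightOneSpectrum.valuation_of_algebraMap] at h3
      exact (HeightOneSpectrum.intValuation_eq_one_iff_mem_primeCompl w s).mp h3
    · rintro ⟨s, t, hs, ht, -, hst⟩
      have h3 : w.valuation M x = 1 := by
        have h4 := congrArg (w.valuation M) hst
        rw [map_mul, av_eq_zero M w _ ht, av_eq_zero M w _ hs, mul_one] at h4
        exact h4
      unfold av
      rw [h3]
      simp
  · rintro x n ⟨s, t, hs, ht, hn, hst⟩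
    by_cases hx : x = 0
    · exact Or.inl hx
    · right
      have ht0 : t ≠ 0 := fun h => ht (by rw [h]; exact Ideal.zero_mem _)
      have h1 : x * algebraMap O M t = algebraMap O M (s - t) := by
        rw [map_sub, ← hst]
        ring
      have ht1 : algebraMap O M t ≠ 0 := fun h => ht0 (hinj (by rw [h, map_zero]))
      have h2 : s - t ≠ 0 := by
        intro h
        rw [h, map_zero] at h1
        exact (mul_ne_zero hx ht1) h1
      have h3 := (le_av_map M w (s - t) h2 n).mpr hn
      rw [← h1, av_mul M w x _ hx ht1, av_zero M w t ht, add_zero] at h3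
      exact h3
  · intro x n hn hx
    rcases hx with rfl | hx
    · refine ⟨1, 1, ?_, ?_, by simp, by simp⟩ <;>
      exact (Ideal.ne_top_iff_one 𝔔).mp hp.ne_top
    · by_cases hx0 : x = 0
      · subst hx0
        refine ⟨1, 1, ?_, ?_, by simp, by simp⟩ <;>
        exact (Ideal.ne_top_iff_one 𝔔).mp hp.ne_top
      · have h0 : w.valuation M x ≤ 1 := by
          have h1 : (0 : ℤ) ≤ av M w x := by
            have : (0 : ℤ) ≤ n := by positivity
            linarith
          have h2 := (le_av_iff M w x hx0 0).mp h1
          simpa using h2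
        obtain ⟨m, t, hmt⟩ := HeightOneSpectrum.exists_primeCompl_mul_eq_of_integer w x h0
        have ht : (t : O) ∉ 𝔔 := t.2
        have ht0 : (t : O) ≠ 0 := fun h => ht (by rw [h]; exact Ideal.zero_mem _)
        have ht1 : algebraMap O M t ≠ 0 := fun h => ht0 (hinj (by rw [h, map_zero]))
        have hm0 : m ≠ 0 := by
          rintro rfl
          rw [map_zero] at hmt
          exact (mul_ne_zero hx0 ht1) hmt
        have hm : m ∈ 𝔔 ^ n := by
          rw [← hwi, ← le_av_map M w m hm0 n, ← hmt, av_mul M w x _ hx0 ht1, av_zero M w _ ht,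
            add_zero]
          exact hx
        have hm1 : m ∈ 𝔔 := Ideal.pow_le_self (by omega) hm
        refine ⟨t + m, t, ?_, ht, ?_, ?_⟩
        · intro h
          exact ht ((Ideal.add_mem_iff_left 𝔔 hm1).mp h)
        · simpa using hm
        · rw [map_add, ← hmt]
          ring

end Pool.Agent.T9h22.LN
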