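import Pool.Agent.T9h3.LN.Spec5

/-!
# Project LN, fifth part: the local lemma for classes of order prime to `r`
-/

set_option autoImplicit false
set_option linter.overlappingInstances false

namespace Pool.Agent.T9h22.LN

open Pool.Agent.T9h3.LN

theorem locD : S_LocD := by
  intro A' L D' _ _ _ _ _ r d hr hdr hd0 W' S' v' hv hS ν hν hνW c a₁ A2 hdvd h2 h3
  have hcop : IsCoprime ((d : ℤ)) ((r : ℤ) ^ 2) := (Nat.isCoprime_iff_coprime.2 hdr).pow_right
  obtain ⟨α, β, hαβ⟩ := hcop
  have hd : (d : ℤ) ≠ 0 := by exact_mod_cast hd0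
  choose n hn using hdvd
  let nH : L →+ ℤ := AddMonoidHom.mk' n (by
    intro x y
    apply mul_left_cancel₀ hd
    rw [mul_add, ← hn, ← hn, ← hn, map_add, map_add])
  let mH : L →+ ℤ := (r : ℤ) • nH - v'.comp A2
  let z : L →+ A' := (zmultiplesHom A' ν).comp mH
  let a' : L →+ A' := α • a₁ + β • ((r : ℤ) • A2 + z)
  have ha' : ∀ x, a' x = α • a₁ x + β • ((r : ℤ) • A2 x + mH x • ν) := fun x => rfl
  have hmx : ∀ x, mH x = r * n x - v' (A2 x) := fun x => rfl
  have hva : ∀ x, v' (a' x) = n x := by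
    intro x
    rw [ha', map_add, map_zsmul, map_zsmul, map_add, map_zsmul, map_zsmul, hn, hν, hmx]
    simp only [smul_eq_mul]
    linear_combination n x * hαβ
  have hvc : ∀ g x, v' (c g x) = n (g⁻¹ • x) - n x := by
    intro g x
    have h := hS _ (h2 g x)
    rw [map_sub, map_nsmul, map_sub, hv, hn, hn, nsmul_eq_mul] at h
    apply mul_left_cancel₀ hd
    linarith
  refine ⟨a', ?_, ?_⟩
  · intro g x
    rw [map_sub, map_sub, hv, hva, hva, hvc]
    ring
  · intro w hw x
    have hm : mH (w⁻¹ • x) = mH x := by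
      rw [hmx, hmx]
      have h := congrArg v' (h3 w hw x)
      rw [map_nsmul, map_sub, hv, hvc, nsmul_eq_mul] at h
      linarith
    have hz : ∀ (e : ℤ) (y : A'), w • (e • y) = e • (w • y) := fun e y =>
      map_zsmul (DistribSMul.toAddMonoidHom A' w) e y
    have h3' : w • A2 (w⁻¹ • x) = (r : ℤ) • c w x + A2 x := by
      rw [natCast_zsmul, h3 w hw x]
      abel
    have e : c w x - (w • a' (w⁻¹ • x) - a' x) =
        α • (d • c w x - (w • a₁ (w⁻¹ • x) - a₁ x)) := by
      have hX : (α * d + β * (r : ℤ) ^ 2) • c w x = c w x := by rw [hαβ, one_smul]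
      rw [ha', ha', hm, smul_add, hz, hz, smul_add, hz, hz, hνW w hw, h3', ← natCast_zsmul]
      have mk : ∀ X P Q V N : A',
          X - (α • P + β • ((r : ℤ) • ((r : ℤ) • X + V) + N) -
            (α • Q + β • ((r : ℤ) • V + N))) - α • ((d : ℤ) • X - (P - Q)) =
          X - (α * d + β * (r : ℤ) ^ 2) • X := by
        intro X P Q V N
        module
      have key := mk (c w x) (w • a₁ (w⁻¹ • x)) (a₁ x) (A2 x) (mH x • ν)
      rw [hX, sub_self] at key
      exact sub_eq_zero.1 key
    rw [e]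
    exact S'.zsmul_mem (h2 w x) α

end Pool.Agent.T9h22.LN
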